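import Pool.Agent.H.MP_ab119d_nt.A

set_option autoImplicit false

namespace Pool.Agent.Results.MP_ab119d_nt.No

open Filter Pool.Agent.H.MP_ba8092_nt Pool.Agent.H.MP_ab119d_nt

theorem result : ∃ q : ℕ → ℕ, (∀ n, 2 ≤ q n) ∧ Tendsto q atTop atTop ∧
    (∀ k m r, 1 ≤ k → 1 ≤ m → r < m → Tendsto (QkAP q k m r) atTop atTop) ∧
    dimH ({x : ℝ | ∀ k, 1 ≤ k → NormalOrd q k x} \
      {x : ℝ | ∃ k r, 2 ≤ k ∧ r < k ∧ NormalAP q k k r x}) = 0 := by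
  refine ⟨Q, Q_two, Q_top, fun _ _ _ _ _ hr => div_AP hr, le_antisymm ?_ zero_le⟩
  rw [← main]
  exact dimH_mono fun x hx => ⟨hx.1 2 one_le_two, fun h => hx.2 ⟨2, 1, le_rfl, one_lt_two, h⟩⟩

end Pool.Agent.Results.MP_ab119d_nt.No
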